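import Pool.Agent.Helper52.Grid.Defs

/-! # Module B of the grid construction: the costs live in a box -/

namespace Pool.Agent.Helper99.Grid

open Pool.Agent.Helper52.Grid

theorem hL_zero (M i r : ℕ) : hL M i r 0 = 4 := by
  unfold hL
  split <;> simp_all

theorem vL_zero (M i r : ℕ) : vL M i r 0 = 4 := by
  unfold vL
  simp

theorem hR_ne {r x : ℕ} (h : hR r x ≠ 4) : x ≤ 1 := by
  unfold hR at h
  split at h <;> simp_all

theorem vR_ne {i r x : ℕ} (h : vR i r x ≠ 4) : x ≤ 2 := by
  unfold vR at h
  split at h <;> simp_all

theorem box : S_Box := by
  intro s M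
  refine ⟨?_, ?_, ?_, ?_, ?_, ?_⟩
  · intro y
    unfold hC
    split_ifs with h1 h2 h3 h4
    · simp [hT]
    · exact hL_zero _ _ _
    · omega
    · omega
    · rfl
  · intro x
    simp only [hC, hT]
    split_ifs <;> first | rfl | omega | simp_all
  · intro y
    unfold vC
    split_ifs with h1 h2 h3 h4
    · simp [vT]
    · exact vL_zero _ _ _
    · omega
    · omega
    · rfl
  · intro x
    simp only [vC, vT]
    split_ifs <;> first | rfl | omega | simp_all
  · intro x y h
    unfold hC at h
    split_ifs at h with h1 h2 h3 h4
    · unfold hT at h
      split_ifs at h <;> omega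
    · constructor <;> omega
    · constructor <;> omega
    · have := hR_ne h
      constructor <;> omega
    · exact absurd rfl h
  · intro x y h
    unfold vC at h
    split_ifs at h with h1 h2 h3 h4
    · unfold vT at h
      split_ifs at h <;> omega
    · constructor <;> omega
    · constructor <;> omega
    · have := vR_ne h
      constructor <;> omega
    · exact absurd rfl h

end Pool.Agent.Helper99.Grid
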