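import Pool.Agent.Helper99.Grid.Choice

/-! # Module K of the grid construction: completeness -/

namespace Pool.Agent.Helper99.Grid

open Pool.Agent.Helper52.Grid

theorem subs_bound {φ : CNF} {N : ℕ} (h : ∀ c ∈ φ, ∀ l ∈ c, l.1 < N) :
    ∀ k i d, sg (subs φ) k = some (i, d) → i < N := by
  intro k i d hk
  have hlt := lt_length_of_sg hk
  have hmem := sg_mem hlt
  rw [hk] at hmem
  unfold subs at hmem
  rw [List.mem_flatMap] at hmem
  obtain ⟨c, hc, ho⟩ := hmem
  rw [clSubs_eq, List.mem_cons] at ho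
  rcases ho with ho | ho
  · cases ho
  · obtain ⟨l, hl, b, hb⟩ := mem_flatMap_litSubs ho
    have := h c hc l hl
    simp only [Option.some.injEq, Prod.mk.injEq] at hb
    omega

theorem subs_zero {φ : CNF} (h : 0 < (subs φ).length) : sg (subs φ) 0 = none := by
  rcases φ with _ | ⟨c, ψ⟩
  · simp [subs] at h
  · rw [subs_cons, clSubs_eq, List.cons_append, sg_cons_zero]

/-- the state of a block in the tour of an assignment -/
theorem sigma_vUse (s : List Sub) (M : ℕ) (a ch : ℕ → Bool) {i k : ℕ} {d : Bool}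
    (hi : i < 2 * M + 1) (hk : sg s k = some (i, d)) :
    sigma (vUse s M a ch) i k = bst s a i k := by
  have hlt := lt_length_of_sg hk
  have e1 : (6 + 6 * i - 4) / 6 = i := by omega
  have e2 : (6 + 6 * i - 4) % 6 = 2 := by omega
  have e3 : (6 + 4 * k - 5) / 4 = k := by omega
  have e4 : (6 + 4 * k - 5) % 4 = 1 := by omega
  have hv : vC s M (6 + 4 * k) (6 + 6 * i) = 2 := by
    unfold vC
    rw [if_neg (by omega), e1, if_pos hi, if_neg (by omega), if_pos (by omega), e2, e3, e4, hk]
    rcases d with _ | _ <;> simp [kind, vCell]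
  have hO : vO s a ch (6 + 4 * k) (6 + 6 * i) = bst s a i k := by
    unfold vO
    rw [if_neg (by omega), e1, if_neg (by omega), if_pos (by omega), e2, e3, hk]
    rcases d with _ | _ <;> simp [kind]
  unfold sigma vUse
  rw [hv, if_neg (by omega), if_pos rfl, hO]

theorem compl (h0 : S_Choice) (h1 : S_Deg) (h2 : S_Conn) : S_Compl := by
  intro φ M a hb hsat
  obtain ⟨ch, hch⟩ := h0 φ a hsat
  have hB := subs_bound hb
  obtain ⟨d1, d2, d3⟩ := h1 (subs φ) M a ch hB subs_zero hch
  have hC2 := h2 (subs φ) M a ch hB subs_zero hch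
  refine ⟨hUse (subs φ) M a ch, vUse (subs φ) M a ch, ?_, ?_⟩
  · refine ⟨?_, ?_, ?_, ?_, d1, d2, d3, ?_⟩
    · intro x y h
      unfold hUse
      rw [if_pos h]
    · intro x y h h'
      unfold hUse
      rw [if_neg h, if_neg h']
    · intro x y h
      unfold vUse
      rw [if_pos h]
    · intro x y h h'
      unfold vUse
      rw [if_neg h, if_neg h']
    · intro S hS1 hS2 p q hp hq hSp
      exact (hC2 S hS1 hS2 q hq).2 ((hC2 S hS1 hS2 p hp).1 hSp)
  · intro i k d hk
    exact sigma_vUse (subs φ) M a ch (hB k i d hk) hk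

theorem compl' (h1 : S_Deg) (h2 : S_Conn) : S_Compl := compl choice h1 h2

end Pool.Agent.Helper99.Grid
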