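import Pool.Agent.Helper52.Grid.Defs

/-! # Module K0 of the grid construction: choosing docked subcolumns -/

namespace Pool.Agent.Helper99.Grid

open Pool.Agent.Helper52.Grid

/-- the two subcolumns of a literal -/
def litSubs (l : ℕ × Bool) : List Sub := [some (l.1, l.2), some (l.1, !l.2)]

theorem clSubs_eq (c : List (ℕ × Bool)) : clSubs c = none :: c.flatMap litSubs := rfl

theorem subs_cons (c : List (ℕ × Bool)) (φ : CNF) : subs (c :: φ) = clSubs c ++ subs φ := by
  simp [subs]

theorem subs_append (φ ψ : CNF) : subs (φ ++ ψ) = subs φ ++ subs ψ := by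
  simp [subs]

theorem length_flatMap_litSubs (c : List (ℕ × Bool)) :
    (c.flatMap litSubs).length = 2 * c.length := by
  induction c with
  | nil => rfl
  | cons l c ih => simp [List.flatMap_cons, litSubs, ih]; omega

theorem mem_flatMap_litSubs {c : List (ℕ × Bool)} {o : Sub} (h : o ∈ c.flatMap litSubs) :
    ∃ l ∈ c, ∃ b, o = some (l.1, b) := by
  rw [List.mem_flatMap] at h
  obtain ⟨l, hl, ho⟩ := h
  simp only [litSubs, List.mem_cons, List.not_mem_nil, or_false] at ho
  rcases ho with rfl | rfl
  · exact ⟨l, hl, _, rfl⟩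
  · exact ⟨l, hl, _, rfl⟩

theorem sg_append_right (s t : List Sub) (j : ℕ) : sg (s ++ t) (s.length + j) = sg t j := by
  simp [sg, List.getD_eq_getElem?_getD, List.getElem?_append_right]

theorem sg_append_left (s t : List Sub) {j : ℕ} (h : j < s.length) : sg (s ++ t) j = sg s j := by
  simp [sg, List.getD_eq_getElem?_getD, List.getElem?_append_left h]

theorem sg_cons_succ (o : Sub) (t : List Sub) (j : ℕ) : sg (o :: t) (j + 1) = sg t j := by
  simp [sg, List.getD_eq_getElem?_getD]

theorem sg_cons_zero (o : Sub) (t : List Sub) : sg (o :: t) 0 = o := by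
  simp [sg, List.getD_eq_getElem?_getD]

theorem sg_mem {s : List Sub} {k : ℕ} (h : k < s.length) : sg s k ∈ s := by
  simp [sg, List.getD_eq_getElem?_getD, List.getElem?_eq_getElem h]

theorem sg_of_le {s : List Sub} {k : ℕ} (h : s.length ≤ k) : sg s k = none := by
  simp [sg, List.getD_eq_getElem?_getD, List.getElem?_eq_none h]

theorem lt_length_of_sg {s : List Sub} {k : ℕ} {p : ℕ × Bool} (h : sg s k = some p) :
    k < s.length := by
  by_contra hk
  rw [sg_of_le (not_lt.mp hk)] at h
  cases h

theorem sg_flatMap_ne_none {c : List (ℕ × Bool)} {j : ℕ} (h : j < 2 * c.length) :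
    sg (c.flatMap litSubs) j ≠ none := by
  have hj : j < (c.flatMap litSubs).length := by rw [length_flatMap_litSubs]; exact h
  obtain ⟨l, -, b, hb⟩ := mem_flatMap_litSubs (sg_mem hj)
  rw [hb]
  simp

/-- the `none` positions of `subs φ` are the starts of the clauses -/
theorem none_pos (φ : CNF) : ∀ k, sg (subs φ) k = none → k < (subs φ).length →
    ∃ φ1 c φ2, φ = φ1 ++ c :: φ2 ∧ k = (subs φ1).length := by
  induction φ with
  | nil => intro k _ hk; simp [subs] at hk
  | cons c ψ ih =>
    intro k hk hlt
    rw [subs_cons] at hk hlt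
    by_cases hc : k < (clSubs c).length
    · rw [sg_append_left _ _ hc] at hk
      rcases k with _ | j
      · exact ⟨[], c, ψ, rfl, rfl⟩
      · exfalso
        rw [clSubs_eq, sg_cons_succ] at hk
        rw [clSubs_eq, List.length_cons, length_flatMap_litSubs] at hc
        exact sg_flatMap_ne_none (by omega) hk
    · obtain ⟨j, rfl⟩ := Nat.exists_eq_add_of_le (not_lt.mp hc)
      rw [sg_append_right] at hk
      rw [List.length_append] at hlt
      obtain ⟨φ1, c', φ2, rfl, hj⟩ := ih j hk (by omega)
      refine ⟨c :: φ1, c', φ2, rfl, ?_⟩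
      rw [subs_cons, List.length_append, hj]

/-- the number of blocks of row `i` -/
def num (i : ℕ) (s : List Sub) : ℕ :=
  (s.filter (fun o => decide ((o.map Prod.fst) = some i))).length

theorem cnt_eq (s : List Sub) (i k : ℕ) : cnt s i k = num i (s.take k) := rfl

theorem num_append (i : ℕ) (s t : List Sub) : num i (s ++ t) = num i s + num i t := by
  simp [num]

theorem num_none (i : ℕ) (s : List Sub) : num i (none :: s) = num i s := by
  simp [num]

theorem num_flatMap (i : ℕ) (c : List (ℕ × Bool)) : num i (c.flatMap litSubs) % 2 = 0 := by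
  induction c with
  | nil => rfl
  | cons l c ih =>
    rw [List.flatMap_cons, num_append]
    have : num i (litSubs l) % 2 = 0 := by
      simp only [num, litSubs, List.filter_cons, List.filter_nil, Option.map_some,
        Option.some.injEq]
      by_cases h : l.1 = i <;> simp [h]
    omega

theorem num_subs (i : ℕ) (φ : CNF) : num i (subs φ) % 2 = 0 := by
  induction φ with
  | nil => rfl
  | cons c ψ ih =>
    rw [subs_cons, num_append, clSubs_eq, num_none]
    have := num_flatMap i c
    omega

/-- a true literal of a clause gives a docked subcolumn whose block is in state `true` -/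
theorem exists_docked (φ1 φ2 : CNF) (c : List (ℕ × Bool)) (a : ℕ → Bool) (l : ℕ × Bool)
    (hl : l ∈ c) (ha : a l.1 = l.2) :
    ∃ q, (subs φ1).length < q ∧ q ≤ (subs φ1).length + 2 * c.length ∧
      sg (subs (φ1 ++ c :: φ2)) q = some (l.1, true) ∧
      a l.1 = decide (cnt (subs (φ1 ++ c :: φ2)) l.1 q % 2 = 0) := by
  obtain ⟨c1, c2, rfl⟩ := List.append_of_mem hl
  set pre : List Sub := subs φ1 ++ none :: c1.flatMap litSubs with hpre
  have hs : subs (φ1 ++ (c1 ++ l :: c2) :: φ2) =
      pre ++ some (l.1, l.2) :: some (l.1, !l.2) :: (c2.flatMap litSubs ++ subs φ2) := by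
    rw [subs_append, subs_cons, clSubs_eq, hpre, List.flatMap_append, List.flatMap_cons]
    simp [litSubs]
  have hlen : pre.length = (subs φ1).length + 1 + 2 * c1.length := by
    rw [hpre, List.length_append, List.length_cons, length_flatMap_litSubs]
    omega
  have hev : num l.1 pre % 2 = 0 := by
    rw [hpre, num_append, num_none]
    have h1 := num_subs l.1 φ1
    have h2 := num_flatMap l.1 c1
    omega
  rw [hs]
  have hcl : (c1 ++ l :: c2).length = c1.length + 1 + c2.length := by
    simp; omega
  rcases hb : l.2 with _ | _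
  · -- the second subcolumn
    refine ⟨pre.length + 1, by omega, by omega, ?_, ?_⟩
    · rw [sg_append_right, sg_cons_succ, sg_cons_zero]
      rfl
    · rw [ha, hb, cnt_eq]
      have : (pre ++ some (l.1, false) :: some (l.1, !false) ::
          (c2.flatMap litSubs ++ subs φ2)).take (pre.length + 1) =
          pre ++ [some (l.1, false)] := by
        rw [List.take_append]
        simp
      rw [this, num_append]
      have h1 : num l.1 [some (l.1, false)] = 1 := by simp [num]
      rw [h1]
      symm
      rw [decide_eq_false_iff_not]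
      omega
  · refine ⟨pre.length, by omega, by omega, ?_, ?_⟩
    · have := sg_append_right pre
        (some (l.1, true) :: some (l.1, !true) :: (c2.flatMap litSubs ++ subs φ2)) 0
      rw [Nat.add_zero] at this
      rw [this, sg_cons_zero]
    · rw [ha, hb, cnt_eq]
      have : (pre ++ some (l.1, true) :: some (l.1, !true) ::
          (c2.flatMap litSubs ++ subs φ2)).take pre.length = pre := by
        simp
      rw [this]
      symm
      rw [decide_eq_true_iff]
      exact hev

/-- docked subcolumns with block in state `true` -/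
def Good (s : List Sub) (a : ℕ → Bool) (k : ℕ) : Prop :=
  ∃ i, sg s k = some (i, true) ∧ a i = decide (cnt s i k % 2 = 0)

theorem choice : S_Choice := by
  intro φ a hφ
  classical
  refine ⟨fun k => decide (Good (subs φ) a k ∧
    ∀ k', k' < k → Good (subs φ) a k' → ∃ m, k' < m ∧ m < k ∧ sg (subs φ) m = none), ?_, ?_⟩
  · intro k hk
    exact (of_decide_eq_true hk).1
  · intro k n hk hlt hin hend
    obtain ⟨φ1, c, φ2, rfl, hk1⟩ := none_pos φ k hk hlt
    obtain ⟨l, hl, hal⟩ := hφ c (by simp)
    obtain ⟨q, hq1, hq2, hq3, hq4⟩ := exists_docked φ1 φ2 c a l hl hal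
    have hn : 2 * c.length ≤ n := by
      by_contra hn
      have hs : subs (φ1 ++ c :: φ2) = subs φ1 ++ none :: (c.flatMap litSubs ++ subs φ2) := by
        rw [subs_append, subs_cons, clSubs_eq]; rfl
      rw [hs, hk1, show (subs φ1).length + n + 1 = (subs φ1).length + (n + 1) from rfl,
        sg_append_right, sg_cons_succ, sg_append_left] at hend
      · exact sg_flatMap_ne_none (by omega) hend
      · rw [length_flatMap_litSubs]; omega
    set s := subs (φ1 ++ c :: φ2) with hs
    have hex : ∃ q, k < q ∧ q ≤ k + n ∧ Good s a q :=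
      ⟨q, by omega, by omega, l.1, hq3, hq4⟩
    have hmin := Nat.find_spec hex
    have hmin' := fun m (h : m < Nat.find hex) => Nat.find_min hex h
    refine ⟨Nat.find hex, ⟨hmin.1, hmin.2.1, ?_⟩, ?_⟩
    · rw [decide_eq_true_iff]
      refine ⟨hmin.2.2, fun k' hk' hg => ?_⟩
      have hne : ¬ k < k' := fun h => hmin' k' hk' ⟨h, by omega, hg⟩
      have hne' : k' ≠ k := by
        rintro rfl
        obtain ⟨i, hi, -⟩ := hg
        rw [hk] at hi
        cases hi
      exact ⟨k, by omega, hmin.1, hk⟩
    · intro l' h1 h2 h3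
      rw [decide_eq_true_iff] at h3
      obtain ⟨hg, hall⟩ := h3
      have hge : Nat.find hex ≤ l' := Nat.find_min' hex ⟨h1, h2, hg⟩
      rcases hge.lt_or_eq with hlt' | heq
      · obtain ⟨m, hm1, hm2, hm3⟩ := hall _ hlt' hmin.2.2
        exact absurd hm3 (hin m (by omega) (by omega))
      · exact heq.symm

end Pool.Agent.Helper99.Grid
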